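import Mathlib

/-!
# Covering number of hypergraphs with locally small covers

`t r` is the supremum of the covering numbers of the finite `r`-uniform hypergraphs all of whose
subhypergraphs on at most `3 r - 3` vertices have covering number at most one.

We prove `t r ≤ k` for `3 ≤ r ≤ 5 k`, and `k ≤ t r` for `r ≥ 5 k - 4 + ⌊(k - 2) / 3⌋`.
-/

set_option autoImplicit false

namespace Pool.Agent.Results.MP_51656a_co.CoverOneFifth

open Finset

/-- `G` is `r`-uniform. -/
def Uniform {V : Type} (r : ℕ) (G : Finset (Finset V)) : Prop := ∀ e ∈ G, e.card = r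

/-- `T` meets every edge of `G`. -/
def IsCover {V : Type} (T : Finset V) (G : Finset (Finset V)) : Prop :=
  ∀ e ∈ G, ∃ v ∈ T, v ∈ e

/-- The covering number: the smallest size of a set of vertices meeting every edge. -/
noncomputable def tau {V : Type} (G : Finset (Finset V)) : ℕ :=
  sInf {k | ∃ T : Finset V, IsCover T G ∧ T.card = k}

/-- Every subhypergraph (vertex set `S`, edge set `G'`) with at most `3 r - 3` vertices has
covering number at most one. -/
def LocalCondition {V : Type} (r : ℕ) (G : Finset (Finset V)) : Prop :=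
  ∀ (S : Finset V) (G' : Finset (Finset V)), S.card ≤ 3 * r - 3 → G' ⊆ G → (∀ e ∈ G', e ⊆ S) →
    tau G' ≤ 1

/-- `t r`: the supremum of `tau G` over all finite `r`-uniform hypergraphs `G` with the local
condition. -/
noncomputable def t (r : ℕ) : ℕ∞ :=
  ⨆ (V : Type) (_ : Fintype V) (G : Finset (Finset V)) (_ : Uniform r G) (_ : LocalCondition r G),
    (tau G : ℕ∞)

section upper

variable {V : Type} [DecidableEq V]

lemma exists_cover {r : ℕ} (hr : 1 ≤ r) {G : Finset (Finset V)} (hU : Uniform r G) :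
    ∃ T : Finset V, IsCover T G ∧ T.card = tau G := by
  have hne : {k | ∃ T : Finset V, IsCover T G ∧ T.card = k}.Nonempty := by
    refine ⟨(G.biUnion id).card, G.biUnion id, ?_, rfl⟩
    intro e he
    have : e.Nonempty := by
      rw [← Finset.card_pos, hU e he]; omega
    obtain ⟨v, hv⟩ := this
    exact ⟨v, Finset.mem_biUnion.2 ⟨e, he, hv⟩, hv⟩
  exact Nat.sInf_mem hne

omit [DecidableEq V] in
lemma tau_le {G : Finset (Finset V)} {T : Finset V} (h : IsCover T G) : tau G ≤ T.card :=
  Nat.sInf_le ⟨T, h, rfl⟩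

/-- a nonempty family of edges inside few vertices has a common vertex -/
lemma common {r : ℕ} (hr : 1 ≤ r) {G : Finset (Finset V)} (hU : Uniform r G)
    (hL : LocalCondition r G) {G' : Finset (Finset V)} (hG' : G' ⊆ G) (hne : G'.Nonempty)
    (hc : (G'.biUnion id).card ≤ 3 * r - 3) : ∃ v, ∀ e ∈ G', v ∈ e := by
  have h1 := hL (G'.biUnion id) G' hc hG' (fun e he => Finset.subset_biUnion_of_mem id he)
  obtain ⟨T, hT, hTc⟩ := exists_cover hr (G := G') (fun e he => hU e (hG' he))
  obtain ⟨e0, he0⟩ := hne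
  obtain ⟨v, hvT, -⟩ := hT e0 he0
  have hT1 : T.card = 1 := by
    have : 0 < T.card := Finset.card_pos.2 ⟨v, hvT⟩
    omega
  obtain ⟨w, rfl⟩ := Finset.card_eq_one.1 hT1
  refine ⟨w, fun e he => ?_⟩
  obtain ⟨x, hx, hxe⟩ := hT e he
  rw [Finset.mem_singleton] at hx
  exact hx ▸ hxe

lemma pair_ne {r : ℕ} (hr : 3 ≤ r) {G : Finset (Finset V)} (hU : Uniform r G)
    (hL : LocalCondition r G) {e f : Finset V} (he : e ∈ G) (hf : f ∈ G) :
    1 ≤ (e ∩ f).card := by
  have h := common (by omega) hU hL (G' := {e, f}) (by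
    intro x hx
    rw [Finset.mem_insert, Finset.mem_singleton] at hx
    rcases hx with rfl | rfl <;> assumption) ⟨e, by simp⟩ (by
    have h1 : ({e, f} : Finset (Finset V)).biUnion id = e ∪ f := by
      rw [Finset.biUnion_insert, Finset.singleton_biUnion]; rfl
    rw [h1]
    have := Finset.card_union_le e f
    rw [hU e he, hU f hf] at this
    omega)
  obtain ⟨v, hv⟩ := h
  exact Finset.card_pos.2 ⟨v, Finset.mem_inter.2 ⟨hv e (by simp), hv f (by simp)⟩⟩

lemma triple {r : ℕ} (hr : 3 ≤ r) {G : Finset (Finset V)} (hU : Uniform r G)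
    (hL : LocalCondition r G) {e f g : Finset V} (he : e ∈ G) (hf : f ∈ G) (hg : g ∈ G) :
    ∃ v, v ∈ e ∩ f ∧ v ∈ g := by
  by_contra hno
  push Not at hno
  have h := common (by omega) hU hL (G' := {e, f, g}) (by
    intro x hx
    simp only [Finset.mem_insert, Finset.mem_singleton] at hx
    rcases hx with rfl | rfl | rfl <;> assumption) ⟨e, by simp⟩ (by
    have h1 : ({e, f, g} : Finset (Finset V)).biUnion id = (e ∪ f) ∪ g := by
      rw [Finset.biUnion_insert, Finset.biUnion_insert, Finset.singleton_biUnion]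
      simp [Finset.union_assoc]
    rw [h1]
    have a1 := Finset.card_union_add_card_inter (e ∪ f) g
    have a2 := Finset.card_union_add_card_inter e f
    have a3 : (e ∪ f) ∩ g = (e ∩ g) ∪ (f ∩ g) := Finset.union_inter_distrib_right e f g
    have a4 : Disjoint (e ∩ g) (f ∩ g) := by
      rw [Finset.disjoint_left]
      intro x hx hx'
      exact hno x (Finset.mem_inter.2 ⟨(Finset.mem_inter.1 hx).1, (Finset.mem_inter.1 hx').1⟩)
        (Finset.mem_inter.1 hx).2
    rw [a3, Finset.card_union_of_disjoint a4] at a1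
    have b1 := pair_ne hr hU hL he hf
    have b2 := pair_ne hr hU hL he hg
    have b3 := pair_ne hr hU hL hf hg
    have c1 := hU e he
    have c2 := hU f hf
    have c3 := hU g hg
    omega)
  obtain ⟨v, hv⟩ := h
  exact hno v (Finset.mem_inter.2 ⟨hv e (by simp), hv f (by simp)⟩) (hv g (by simp))

lemma avoid {G : Finset (Finset V)} {u : ℕ} (ht : u < tau G) (Y : Finset V) (hY : Y.card ≤ u) :
    ∃ g ∈ G, ∀ v ∈ Y, v ∉ g := by
  by_contra hno
  push Not at hno
  have : IsCover Y G := fun e he => by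
    obtain ⟨v, hv, hve⟩ := hno e he
    exact ⟨v, hv, hve⟩
  have := tau_le this
  omega

lemma collect {G : Finset (Finset V)} {u : ℕ} (ht : u < tau G) (I : Finset V) (hI : u ≤ I.card) :
    ∀ (q : ℕ) (W : Finset V), W ⊆ I → W.card ≤ q * u →
      ∃ H : Finset (Finset V), H ⊆ G ∧ H.card ≤ q ∧ (∀ h ∈ H, (h ∩ I).card + u ≤ I.card) ∧
        ∀ w ∈ W, ∃ h ∈ H, w ∉ h := by
  intro q
  induction q with
  | zero =>
    intro W _ hW
    have : W = ∅ := by
      rw [← Finset.card_eq_zero]; omega
    subst this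
    exact ⟨∅, by simp, by simp, by simp, by simp⟩
  | succ q ih =>
    intro W hWI hW
    obtain ⟨Y, hYI, hYc, hWY⟩ : ∃ Y ⊆ I, Y.card = u ∧ (W \ Y).card ≤ q * u := by
      rcases le_total W.card u with h | h
      · obtain ⟨Y, h1, h2, h3⟩ := Finset.exists_subsuperset_card_eq hWI h hI
        refine ⟨Y, h2, h3, ?_⟩
        rw [Finset.sdiff_eq_empty_iff_subset.2 h1]
        simp
      · obtain ⟨Y, h1, h2⟩ := Finset.exists_subset_card_eq h
        refine ⟨Y, h1.trans hWI, h2, ?_⟩
        rw [Finset.card_sdiff_of_subset h1, h2]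
        rw [Nat.succ_mul] at hW
        omega
    obtain ⟨g, hgG, hg⟩ := avoid ht Y hYc.le
    obtain ⟨H, hHG, hHc, hH1, hH2⟩ := ih (W \ Y) (Finset.sdiff_subset.trans hWI) hWY
    refine ⟨insert g H, ?_, ?_, ?_, ?_⟩
    · intro x hx
      rcases Finset.mem_insert.1 hx with rfl | hx
      · exact hgG
      · exact hHG hx
    · exact (Finset.card_insert_le _ _).trans (by omega)
    · intro h hh
      rcases Finset.mem_insert.1 hh with rfl | hh
      · have h1 : h ∩ I ⊆ I \ Y := by
          intro x hx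
          rw [Finset.mem_inter] at hx
          rw [Finset.mem_sdiff]
          exact ⟨hx.2, fun hxY => hg x hxY hx.1⟩
        have h2 := Finset.card_le_card h1
        rw [Finset.card_sdiff_of_subset hYI, hYc] at h2
        omega
      · exact hH1 h hh
    · intro w hw
      by_cases hwY : w ∈ Y
      · exact ⟨g, Finset.mem_insert_self _ _, hg w hwY⟩
      · obtain ⟨h, hh, hwh⟩ := hH2 w (Finset.mem_sdiff.2 ⟨hw, hwY⟩)
        exact ⟨h, Finset.mem_insert_of_mem hh, hwh⟩

theorem upper {r : ℕ} (hr : 3 ≤ r) {G : Finset (Finset V)} (hU : Uniform r G)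
    (hL : LocalCondition r G) {u : ℕ} (hu : 1 ≤ u) (hru : r ≤ 5 * u) : tau G ≤ u := by
  by_contra hlt
  push Not at hlt
  -- a pair of edges with smallest intersection
  have hGne : G.Nonempty := by
    obtain ⟨g, hg, -⟩ := avoid hlt ∅ (by simp)
    exact ⟨g, hg⟩
  obtain ⟨⟨e, f⟩, hef, hmin⟩ := Finset.exists_min_image (G ×ˢ G) (fun x => (x.1 ∩ x.2).card)
    (hGne.product hGne)
  rw [Finset.mem_product] at hef
  obtain ⟨he, hf⟩ := hef
  simp only at he hf
  have hmin' : ∀ a ∈ G, ∀ b ∈ G, (e ∩ f).card ≤ (a ∩ b).card := fun a ha b hb =>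
    hmin (a, b) (Finset.mk_mem_product ha hb)
  set I := e ∩ f with hIdef
  set p := I.card with hp
  have hpu : u + 1 ≤ p := by
    have hc : IsCover I G := fun g hg => triple hr hU hL he hf hg
    have := tau_le hc
    omega
  set i := (p - 1) / u with hi
  have hi1 : i * u ≤ p - 1 := Nat.div_mul_le_self _ _
  have hi2 : p - 1 < (i + 1) * u := by
    have h := Nat.lt_mul_div_succ (p - 1) (show 0 < u by omega)
    rw [← hi, mul_comm] at h
    exact h
  have hi3 : 1 ≤ i := by
    rw [hi, Nat.one_le_div_iff (by omega)]; omega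
  obtain ⟨H, hHG, hHc, hH1, hH2⟩ := collect hlt I (by omega) (i + 1) I (Finset.Subset.refl _)
    (by omega)
  -- each member of H adds few new vertices
  have hnew : ∀ h ∈ H, (h \ (e ∪ f)).card + p + u ≤ r := by
    intro h hh
    have hhG := hHG hh
    have a1 := Finset.card_union_add_card_inter (h ∩ e) (h ∩ f)
    have a2 : (h ∩ e) ∪ (h ∩ f) = h ∩ (e ∪ f) := (Finset.inter_union_distrib_left h e f).symm
    have a3 : (h ∩ e) ∩ (h ∩ f) = h ∩ I := by
      ext x; simp only [Finset.mem_inter, hIdef]; tauto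
    rw [a2, a3] at a1
    have b1 := hmin' h hhG e he
    have b2 := hmin' h hhG f hf
    have b3 := hH1 h hh
    have b4 := Finset.card_sdiff_add_card_inter h (e ∪ f)
    have b5 := hU h hhG
    omega
  have hIne : I.Nonempty := Finset.card_pos.1 (by omega)
  obtain ⟨w, hw⟩ := hIne
  obtain ⟨h0, hh0, -⟩ := hH2 w hw
  have hpr : p + u ≤ r := by have := hnew h0 hh0; omega
  -- the union of all these edges
  set G' : Finset (Finset V) := insert e (insert f H) with hG'
  have hsub : G' ⊆ G := by
    intro x hx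
    simp only [hG', Finset.mem_insert] at hx
    rcases hx with rfl | rfl | hx
    · exact he
    · exact hf
    · exact hHG hx
  have hnocommon : ¬ ∃ v, ∀ x ∈ G', v ∈ x := by
    rintro ⟨v, hv⟩
    have h1 : v ∈ I := Finset.mem_inter.2 ⟨hv e (by simp [hG']), hv f (by simp [hG'])⟩
    obtain ⟨h, hh, hvh⟩ := hH2 v h1
    exact hvh (hv h (by simp [hG', hh]))
  have hbig : 3 * r - 3 < (G'.biUnion id).card := by
    by_contra hle
    push Not at hle
    exact hnocommon (common (by omega) hU hL hsub ⟨e, by simp [hG']⟩ hle)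
  have hle : (G'.biUnion id).card ≤ (e ∪ f).card + (i + 1) * (r - p - u) := by
    have h1 : G'.biUnion id ⊆ (e ∪ f) ∪ H.biUnion (fun h => h \ (e ∪ f)) := by
      intro x hx
      rw [Finset.mem_biUnion] at hx
      obtain ⟨y, hy, hxy⟩ := hx
      simp only [id] at hxy
      simp only [hG', Finset.mem_insert] at hy
      by_cases hxe : x ∈ e ∪ f
      · exact Finset.mem_union_left _ hxe
      · rcases hy with rfl | rfl | hy
        · exact Finset.mem_union_left _ (Finset.mem_union_left _ hxy)
        · exact Finset.mem_union_left _ (Finset.mem_union_right _ hxy)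
        · exact Finset.mem_union_right _ (Finset.mem_biUnion.2 ⟨y, hy,
            Finset.mem_sdiff.2 ⟨hxy, hxe⟩⟩)
    refine (Finset.card_le_card h1).trans ((Finset.card_union_le _ _).trans ?_)
    refine Nat.add_le_add_left ?_ _
    have h2 := Finset.card_biUnion_le_card_mul H (fun h => h \ (e ∪ f)) (r - p - u)
      (fun h hh => by have := hnew h hh; omega)
    exact h2.trans (Nat.mul_le_mul_right _ hHc)
  have hef : (e ∪ f).card + p = 2 * r := by
    have := Finset.card_union_add_card_inter e f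
    rw [hU e he, hU f hf] at this
    have hpI : p = (e ∩ f).card := rfl
    omega
  obtain ⟨K, hK⟩ : ∃ K, r = p + u + K := ⟨r - p - u, by omega⟩
  have hK' : r - p - u = K := by omega
  rw [hK'] at hle
  have hfin : 3 * r ≤ 2 * r - p + (i + 1) * K + 2 := by omega
  have hp2 : p ≤ 2 * r := by omega
  have e1 : (r : ℤ) + p ≤ (i + 1) * K + 2 := by
    have : r + p ≤ (i + 1) * K + 2 := by omega
    exact_mod_cast this
  have e2 : (r : ℤ) = p + u + K := by exact_mod_cast hK
  have e3 : (i : ℤ) * u + 1 ≤ p := by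
    have : i * u + 1 ≤ p := by omega
    exact_mod_cast this
  have e4 : (r : ℤ) ≤ 5 * u := by exact_mod_cast hru
  have e5 : (1 : ℤ) ≤ i := by exact_mod_cast hi3
  have e6 : (1 : ℤ) ≤ u := by exact_mod_cast hu
  have e7 : (K : ℤ) = r - p - u := by linarith
  rw [e7] at e1
  nlinarith [mul_le_mul_of_nonneg_left e4 (by linarith : (0 : ℤ) ≤ i),
    mul_le_mul_of_nonneg_left e3 (by linarith : (0 : ℤ) ≤ i + 2),
    mul_nonneg (by linarith : (0 : ℤ) ≤ u) (sq_nonneg ((i : ℤ) - 1))]

end upper

/-! ### The construction -/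

section lower

variable (m d : ℕ)

/-- The vertex set of the construction: the core `Fin (3 m + 1)` and `d` private vertices for each
set `F`. -/
abbrev Vx : Type := Fin (3 * m + 1) ⊕ (Finset (Fin (3 * m + 1)) × Fin d)

/-- The edge attached to `F`: the complement of `F` in the core and the private vertices of `F`. -/
def edge (F : Finset (Fin (3 * m + 1))) : Finset (Vx m d) :=
  Finset.disjSum Fᶜ (({F} : Finset (Finset (Fin (3 * m + 1)))) ×ˢ (Finset.univ : Finset (Fin d)))

/-- The hypergraph: all edges attached to `m`-sets. -/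
def Gr : Finset (Finset (Vx m d)) :=
  (Finset.powersetCard m (Finset.univ : Finset (Fin (3 * m + 1)))).image (edge m d)

lemma inl_mem_edge {F : Finset (Fin (3 * m + 1))} {x : Fin (3 * m + 1)} :
    (Sum.inl x : Vx m d) ∈ edge m d F ↔ x ∉ F := by
  simp [edge]

lemma inr_mem_edge {F : Finset (Fin (3 * m + 1))} {y : Finset (Fin (3 * m + 1)) × Fin d} :
    (Sum.inr y : Vx m d) ∈ edge m d F ↔ y.1 = F := by
  obtain ⟨a, b⟩ := y
  simp [edge, eq_comm]

lemma card_compl_of {F : Finset (Fin (3 * m + 1))} (hF : F.card = m) : Fᶜ.card = 2 * m + 1 := by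
  rw [Finset.card_compl, Fintype.card_fin, hF]; omega

lemma card_edge {F : Finset (Fin (3 * m + 1))} (hF : F.card = m) :
    (edge m d F).card = 2 * m + 1 + d := by
  rw [edge, Finset.card_disjSum, card_compl_of m hF, Finset.card_product]
  simp

lemma uniform_Gr : Uniform (2 * m + 1 + d) (Gr m d) := by
  intro e he
  rw [Gr, Finset.mem_image] at he
  obtain ⟨F, hF, rfl⟩ := he
  exact card_edge m d (Finset.mem_powersetCard.1 hF).2

lemma tau_Gr : m + 1 ≤ tau (Gr m d) := by
  obtain ⟨T, hT, hTc⟩ := exists_cover (by omega) (uniform_Gr m d)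
  rw [← hTc]
  by_contra hlt
  push Not at hlt
  -- replace the private vertices of `T` by core vertices
  have hne : ∀ F : Finset (Fin (3 * m + 1)), ∃ x : Fin (3 * m + 1), F.card = m → x ∉ F := by
    intro F
    by_cases h : F.card = m
    · have : Fᶜ.Nonempty := by
        rw [← Finset.card_pos, card_compl_of m h]; omega
      obtain ⟨x, hx⟩ := this
      exact ⟨x, fun _ => Finset.mem_compl.1 hx⟩
    · exact ⟨0, fun h' => absurd h' h⟩
  choose w hw using hne
  set φ : Vx m d → Fin (3 * m + 1) := fun v => Sum.elim id (fun y => w y.1) v with hφ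
  have hT' : (T.image φ).card ≤ m := Finset.card_image_le.trans (by omega)
  obtain ⟨F, hF1, -, hF2⟩ := Finset.exists_subsuperset_card_eq (Finset.subset_univ (T.image φ)) hT'
    (by rw [Finset.card_univ, Fintype.card_fin]; omega)
  have hFG : edge m d F ∈ Gr m d := by
    rw [Gr, Finset.mem_image]
    exact ⟨F, Finset.mem_powersetCard.2 ⟨Finset.subset_univ _, hF2⟩, rfl⟩
  obtain ⟨v, hvT, hvF⟩ := hT _ hFG
  have hφv : φ v ∈ F := hF1 (Finset.mem_image_of_mem φ hvT)
  rcases v with x | y
  · rw [inl_mem_edge] at hvF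
    exact hvF (by simpa [hφ] using hφv)
  · rw [inr_mem_edge] at hvF
    have : φ (Sum.inr y) = w y.1 := rfl
    rw [this, hvF] at hφv
    exact hw F hF2 hφv

lemma local_Gr (hd : 3 * m + (m - 1) / 3 ≤ d) : LocalCondition (2 * m + 1 + d) (Gr m d) := by
  intro S G' hS hG' hG'S
  classical
  -- the sets `F` of the edges of `G'`
  set A : Finset (Finset (Fin (3 * m + 1))) :=
    (Finset.powersetCard m Finset.univ).filter (fun F => edge m d F ∈ G') with hA
  have hAm : ∀ F ∈ A, F.card = m := fun F hF =>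
    (Finset.mem_powersetCard.1 (Finset.mem_filter.1 hF).1).2
  have hAG : ∀ F ∈ A, edge m d F ⊆ S := fun F hF => hG'S _ (Finset.mem_filter.1 hF).2
  have hGA : ∀ e ∈ G', ∃ F ∈ A, e = edge m d F := by
    intro e he
    have := hG' he
    rw [Gr, Finset.mem_image] at this
    obtain ⟨F, hF, rfl⟩ := this
    exact ⟨F, Finset.mem_filter.2 ⟨hF, he⟩, rfl⟩
  by_cases hx : ∃ x, ∀ F ∈ A, x ∉ F
  · obtain ⟨x, hx⟩ := hx
    have hc : IsCover {(Sum.inl x : Vx m d)} G' := by
      intro e he
      obtain ⟨F, hF, rfl⟩ := hGA e he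
      exact ⟨_, Finset.mem_singleton_self _, (inl_mem_edge m d).2 (hx F hF)⟩
    exact (tau_le hc).trans (by simp)
  · exfalso
    push Not at hx
    have hAne : A.Nonempty := by
      obtain ⟨F, hF, -⟩ := hx 0
      exact ⟨F, hF⟩
    -- the common part of the sets in `A`
    set Z : Finset (Fin (3 * m + 1)) := Finset.univ.filter (fun x => ∀ F ∈ A, x ∈ F) with hZ
    have hZF : ∀ F ∈ A, Z ⊆ F := fun F hF x hx => (Finset.mem_filter.1 hx).2 F hF
    have hZm : Z.card ≤ m := by
      obtain ⟨F, hF⟩ := hAne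
      exact (Finset.card_le_card (hZF F hF)).trans (hAm F hF).le
    -- counting the covering of the core
    have h1 : (3 * m + 1) - Z.card ≤ A.card * (m - Z.card) := by
      have h2 : Zᶜ ⊆ A.biUnion (fun F => F \ Z) := by
        intro x hxZ
        obtain ⟨F, hF, hxF⟩ := hx x
        exact Finset.mem_biUnion.2 ⟨F, hF, Finset.mem_sdiff.2 ⟨hxF, Finset.mem_compl.1 hxZ⟩⟩
      have h3 := (Finset.card_le_card h2).trans (Finset.card_biUnion_le_card_mul A
        (fun F => F \ Z) (m - Z.card) (fun F hF => by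
          rw [Finset.card_sdiff_of_subset (hZF F hF), hAm F hF]))
      rwa [Finset.card_compl, Fintype.card_fin] at h3
    -- the size of `S`
    have h4 : (3 * m + 1 - Z.card) + A.card * d ≤ S.card := by
      have h5 : Finset.disjSum Zᶜ (A ×ˢ (Finset.univ : Finset (Fin d))) ⊆ S := by
        intro v hv
        rcases v with x | y
        · rw [Finset.inl_mem_disjSum, Finset.mem_compl, hZ, Finset.mem_filter] at hv
          push Not at hv
          obtain ⟨F, hF, hxF⟩ := hv (Finset.mem_univ _)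
          exact hAG F hF ((inl_mem_edge m d).2 hxF)
        · rw [Finset.inr_mem_disjSum, Finset.mem_product] at hv
          exact hAG y.1 hv.1 ((inr_mem_edge m d).2 rfl)
      have h6 := Finset.card_le_card h5
      rw [Finset.card_disjSum, Finset.card_compl, Fintype.card_fin, Finset.card_product,
        Finset.card_univ, Fintype.card_fin] at h6
      exact h6
    have h7 : S.card ≤ 6 * m + 3 * d := by omega
    set a := Z.card with ha
    set s := A.card with hs
    have hs4 : 4 ≤ s := by
      by_contra hlt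
      have : s * (m - a) ≤ 3 * (m - a) := Nat.mul_le_mul_right _ (by omega)
      omega
    rcases Nat.lt_or_ge s 5 with h5 | h5
    · have hs' : s = 4 := by omega
      rw [hs'] at h1 h4
      omega
    · have : 5 * d ≤ s * d := Nat.mul_le_mul_right _ h5
      omega

end lower

theorem result :
    -- upper bound
    (∀ r k : ℕ, 3 ≤ r → 1 ≤ k → r ≤ 5 * k → t r ≤ k) ∧
    -- lower bound
    (∀ r k : ℕ, 1 ≤ k → 5 * k - 4 + (k - 2) / 3 ≤ r → (k : ℕ∞) ≤ t r) ∧
    -- exact values
    (∀ r k : ℕ, 3 ≤ r → 1 ≤ k → 5 * k - 4 + (k - 2) / 3 ≤ r → r ≤ 5 * k → t r = k) ∧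
    (∀ r : ℕ, 3 ≤ r → r ≤ 20 → t r = ((r + 4) / 5 : ℕ)) := by
  have hup : ∀ r k : ℕ, 3 ≤ r → 1 ≤ k → r ≤ 5 * k → t r ≤ k := by
    intro r k hr hk hrk
    refine iSup_le fun V => iSup_le fun _ => iSup_le fun G => iSup_le fun hU => iSup_le fun hL => ?_
    classical
    exact_mod_cast upper hr hU hL hk hrk
  have hlow : ∀ r k : ℕ, 1 ≤ k → 5 * k - 4 + (k - 2) / 3 ≤ r → (k : ℕ∞) ≤ t r := by
    intro r k hk hr
    obtain ⟨m, rfl⟩ : ∃ m, k = m + 1 := ⟨k - 1, by omega⟩
    obtain ⟨d, rfl⟩ : ∃ d, r = 2 * m + 1 + d := ⟨r - (2 * m + 1), by omega⟩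
    have hd : 3 * m + (m - 1) / 3 ≤ d := by omega
    refine le_trans ?_ (le_iSup_of_le (Vx m d) (le_iSup_of_le inferInstance
      (le_iSup_of_le (Gr m d) (le_iSup_of_le (uniform_Gr m d)
        (le_iSup_of_le (local_Gr m d hd) (le_refl _))))))
    exact_mod_cast tau_Gr m d
  refine ⟨hup, hlow, fun r k h1 h2 h3 h4 => le_antisymm (hup r k h1 h2 h4) (hlow r k h2 h3), ?_⟩
  intro r h3 h20
  exact le_antisymm (hup r ((r + 4) / 5) h3 (by omega) (by omega))
    (hlow r ((r + 4) / 5) (by omega) (by omega))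

end Pool.Agent.Results.MP_51656a_co.CoverOneFifth
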